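import Pool.Agent.Y262.QE.Stm

/-!
# A test function (project QE of helper262)
-/

set_option autoImplicit false

open Set Filter Topology MeasureTheory
open scoped Real ContDiff

noncomputable section

namespace Pool.Agent.Y850.QE

open Pool.Agent.Y262.QE

theorem bmp : StBmp := by
  intro L hL
  -- the bump function
  let φ : ContDiffBump (L / 2) := ⟨L / 16, L / 8, by linarith, by linarith⟩
  have hφ : ContDiff ℝ ∞ (φ : ℝ → ℝ) := φ.contDiff
  have hsup : tsupport (φ : ℝ → ℝ) ⊆ Ioo 0 L := by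
    rw [φ.tsupport_eq, Real.closedBall_eq_Icc]
    intro x hx
    have h1 : φ.rOut = L / 8 := rfl
    rw [h1] at hx
    constructor
    · linarith [hx.1]
    · linarith [hx.2]
  have hcs : HasCompactSupport (φ : ℝ → ℝ) := φ.hasCompactSupport
  let χ₀ : ℝ → ℝ := deriv (φ : ℝ → ℝ)
  have hχs : ContDiff ℝ ∞ χ₀ := by
    have : ContDiff ℝ (∞ + 1) (φ : ℝ → ℝ) := hφ
    exact (contDiff_succ_iff_deriv.1 this).2.2
  have hχc : HasCompactSupport χ₀ := hcs.deriv
  have hχt : tsupport χ₀ ⊆ Ioo 0 L := subset_trans (tsupport_deriv_subset (f := (φ : ℝ → ℝ))) hsup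
  have hout : ∀ f : ℝ → ℝ, tsupport f ⊆ Ioo 0 L → ∀ x, x ∉ Ioo 0 L → f x = 0 := by
    intro f hf x hx
    exact image_eq_zero_of_notMem_tsupport fun h => hx (hf h)
  have hint : ∀ f : ℝ → ℝ, (∀ x, x ∉ Ioo 0 L → f x = 0) →
      ∫ x in Ioo 0 L, f x = ∫ x, f x := by
    intro f hf
    rw [setIntegral_eq_integral_of_forall_compl_eq_zero]
    intro x hx
    exact hf x hx
  have h0 : ∫ x in Ioo 0 L, χ₀ x = 0 := by
    rw [← integral_Ioc_eq_integral_Ioo, ← intervalIntegral.integral_of_le hL.le,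
      intervalIntegral.integral_deriv_eq_sub (fun x _ => (hφ.differentiable (by simp)) x)
        (hχs.continuous.intervalIntegrable _ _),
      hout _ hsup L (by simp), hout _ hsup 0 (by simp), sub_zero]
  have hne : ∃ x, χ₀ x ≠ 0 := by
    by_contra h
    push Not at h
    have h1 := is_const_of_deriv_eq_zero (hφ.differentiable (by simp)) h (L / 2) 0
    rw [hout _ hsup 0 (by simp)] at h1
    have h2 : (φ : ℝ → ℝ) (L / 2) = 1 := φ.one_of_mem_closedBall (by
      simp only [Metric.mem_closedBall, dist_self]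
      exact φ.rIn_pos.le)
    rw [h2] at h1
    exact one_ne_zero h1
  set I : ℝ := ∫ x in Ioo 0 L, (χ₀ x) ^ 2 with hI
  have hIpos : 0 < I := by
    rw [hI, hint _ fun x hx => by rw [hout _ hχt x hx]; norm_num]
    obtain ⟨x, hx⟩ := hne
    have hc : Continuous fun x => (χ₀ x) ^ 2 := hχs.continuous.pow 2
    have hs : HasCompactSupport fun x => (χ₀ x) ^ 2 := by
      have := hχc.comp_left (g := fun t : ℝ => t ^ 2) (by norm_num)
      exact this
    exact hc.integral_pos_of_hasCompactSupport_nonneg_nonzero hs (fun _ => sq_nonneg _)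
      (pow_ne_zero 2 hx)
  have hsq : Real.sqrt I ^ 2 = I := Real.sq_sqrt hIpos.le
  refine ⟨fun x => (Real.sqrt I)⁻¹ * χ₀ x, ⟨contDiff_const.mul hχs, ?_, ?_⟩, ?_, ?_⟩
  · exact hχc.mul_left
  · exact subset_trans (tsupport_mul_subset_right (f := fun _ : ℝ => (Real.sqrt I)⁻¹) (g := χ₀)) hχt
  · rw [integral_const_mul, h0, mul_zero]
  · simp only [mul_pow]
    rw [integral_const_mul, ← hI, inv_pow, hsq]
    exact inv_mul_cancel₀ hIpos.ne'

end Pool.Agent.Y850.QE
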