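import Pool.Agent.Y262.QE.Stm

/-!
# A decreasing function leaves an interval quickly (project QE of helper262)
-/

set_option autoImplicit false

open Set Filter Topology MeasureTheory
open scoped Real ContDiff

noncomputable section

namespace Pool.Agent.Y850.QE

open Pool.Agent.Y262.QE

/-- the bound between two points -/
theorem one_aux (f : ℝ → ℝ) (hf : Antitone f) (c : ℝ) (hc : 0 < c) (T : Set ℝ)
    (hT : MeasurableSet T) (hd : ∀ s ∈ T, deriv f s ≤ -c) (s t : ℝ) (hst : s ≤ t) :
    volume (T ∩ Icc s t) ≤ ENNReal.ofReal ((f s - f t) / c) := by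
  have hm : Monotone fun x => -f x := fun x y h => neg_le_neg (hf h)
  have hmo : MonotoneOn (fun x => -f x) (uIcc s t) := hm.monotoneOn _
  have hint := hmo.intervalIntegrable_deriv
  have hmem := hmo.intervalIntegral_deriv_mem_uIcc
  have h0 : (0 : ℝ) ≤ -f t - -f s := by linarith [hf hst]
  rw [uIcc_of_le h0] at hmem
  have hI : IntegrableOn (deriv fun x => -f x) (Icc s t) :=
    (intervalIntegrable_iff_integrableOn_Icc_of_le hst).1 hint
  have hnn : ∀ x, 0 ≤ deriv (fun x => -f x) x := fun x => hm.deriv_nonneg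
  have hle : ∫ x in Icc s t, deriv (fun x => -f x) x ≤ f s - f t := by
    rw [integral_Icc_eq_integral_Ioc, ← intervalIntegral.integral_of_le hst]
    linarith [hmem.2]
  have hlin : ∫⁻ x in Icc s t, ENNReal.ofReal (deriv (fun x => -f x) x) ≤
      ENNReal.ofReal (f s - f t) := by
    rw [← ofReal_integral_eq_lintegral_ofReal hI (Eventually.of_forall hnn)]
    exact ENNReal.ofReal_le_ofReal hle
  have hlow : ENNReal.ofReal c * volume (T ∩ Icc s t) ≤
      ∫⁻ x in Icc s t, ENNReal.ofReal (deriv (fun x => -f x) x) := by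
    calc ENNReal.ofReal c * volume (T ∩ Icc s t)
        = ∫⁻ _ in T ∩ Icc s t, ENNReal.ofReal c := by rw [setLIntegral_const]
      _ ≤ ∫⁻ x in T ∩ Icc s t, ENNReal.ofReal (deriv (fun x => -f x) x) := by
          refine setLIntegral_mono_ae' (hT.inter measurableSet_Icc) ?_
          refine Eventually.of_forall fun x hx => ENNReal.ofReal_le_ofReal ?_
          have h1 := hd x hx.1
          have h2 : deriv (fun x => -f x) x = -deriv f x := deriv.fun_neg
          rw [h2]
          linarith
      _ ≤ _ := lintegral_mono_set inter_subset_right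
  have h := hlow.trans hlin
  rw [ENNReal.ofReal_div_of_pos hc]
  rw [ENNReal.le_div_iff_mul_le (Or.inl (by simpa using hc)) (Or.inl ENNReal.ofReal_ne_top),
    mul_comm]
  exact h

theorem one : StOne := by
  intro f K hK hf c hc T hT hd α β hαβ
  have hS : MeasurableSet (T ∩ f ⁻¹' Icc α β) :=
    hT.inter (hK.continuous.measurable measurableSet_Icc)
  rw [hS.measure_eq_iSup_isCompact]
  refine iSup_le fun A => iSup_le fun hA => iSup_le fun hAc => ?_
  rcases A.eq_empty_or_nonempty with rfl | hne
  · simp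
  have h1 := hA (hAc.sInf_mem hne)
  have h2 := hA (hAc.sSup_mem hne)
  have h3 : A ⊆ T ∩ Icc (sInf A) (sSup A) := fun x hx =>
    ⟨(hA hx).1, csInf_le hAc.bddBelow hx, le_csSup hAc.bddAbove hx⟩
  refine (measure_mono h3).trans ?_
  refine (one_aux f hf c hc T hT hd _ _ (csInf_le hAc.bddBelow (hAc.sSup_mem hne))).trans ?_
  refine ENNReal.ofReal_le_ofReal ?_
  refine div_le_div_of_nonneg_right ?_ hc.le
  have h4 := h1.2.2
  have h5 := h2.2.1
  linarith

end Pool.Agent.Y850.QE
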