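import Pool.Agent.Y262.QE.Stm

/-!
# The square of a solution (project QE of helper262)
-/

set_option autoImplicit false

open Set Filter Topology MeasureTheory
open scoped Real ContDiff

noncomputable section

namespace Pool.Agent.Y850.QE

open Pool.Agent.Y262.QE

theorem quad (hCS : StCS) : StQuad := by
  obtain ⟨-, -, hc, hs, -⟩ := hCS
  intro L k α β η ⟨hη, hηc, hηt⟩
  rcases le_or_gt L 0 with hL | hL
  · rw [Ioo_eq_empty (not_lt.2 hL)]
    simp
  have h1 : ContDiff ℝ ∞ (deriv η) := by
    have : ContDiff ℝ (∞ + 1) η := hη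
    exact (contDiff_succ_iff_deriv.1 this).2.2
  have h2 : ContDiff ℝ ∞ (deriv (deriv η)) := by
    have : ContDiff ℝ (∞ + 1) (deriv η) := h1
    exact (contDiff_succ_iff_deriv.1 this).2.2
  have h3 : ContDiff ℝ ∞ (deriv (deriv (deriv η))) := by
    have : ContDiff ℝ (∞ + 1) (deriv (deriv η)) := h2
    exact (contDiff_succ_iff_deriv.1 this).2.2
  have e3 : iteratedDeriv 3 η = deriv (deriv (deriv η)) := by
    rw [iteratedDeriv_succ, iteratedDeriv_succ, iteratedDeriv_one]
  rw [e3]
  let p : ℝ → ℝ := fun x => α * cs k x + β * sn k x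
  let dp : ℝ → ℝ := fun x => α * (-k * sn k x) + β * cs k x
  have hp : ∀ x, HasDerivAt p (dp x) x := fun x =>
    ((hc k x).const_mul α).add ((hs k x).const_mul β)
  have hdp : ∀ x, HasDerivAt dp (-k * p x) x := by
    intro x
    have h := (((hs k x).const_mul (-k)).const_mul α).add ((hc k x).const_mul β)
    have e : -k * p x = α * (-k * cs k x) + β * (-k * sn k x) := by
      change -k * (α * cs k x + β * sn k x) = _
      ring
    rw [e]
    exact h
  let F : ℝ → ℝ := fun x => deriv (deriv η) x * (p x) ^ 2 - deriv η x * (2 * p x * dp x) +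
    η x * (2 * (dp x) ^ 2 - 2 * k * (p x) ^ 2) + 4 * k * (η x * (p x) ^ 2)
  have hF : ∀ x, HasDerivAt F ((deriv (deriv (deriv η)) x + 4 * k * deriv η x) * (p x) ^ 2) x := by
    intro x
    have a0 : HasDerivAt η (deriv η x) x := (hη.differentiable (by simp) x).hasDerivAt
    have a1 : HasDerivAt (deriv η) (deriv (deriv η) x) x :=
      (h1.differentiable (by simp) x).hasDerivAt
    have a2 : HasDerivAt (deriv (deriv η)) (deriv (deriv (deriv η)) x) x :=
      (h2.differentiable (by simp) x).hasDerivAt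
    have b1 : HasDerivAt (fun x => (p x) ^ 2) (2 * p x * dp x) x := by
      exact ((hp x).pow 2).congr_deriv (by norm_num)
    have b0 : HasDerivAt (fun x => (dp x) ^ 2) (2 * dp x * (-k * p x)) x := by
      exact ((hdp x).pow 2).congr_deriv (by norm_num)
    have b2 : HasDerivAt (fun x => 2 * p x * dp x) (2 * dp x * dp x + 2 * p x * (-k * p x)) x :=
      ((hp x).const_mul 2).mul (hdp x)
    have b3 : HasDerivAt (fun x => 2 * (dp x) ^ 2 - 2 * k * (p x) ^ 2)
        (2 * (2 * dp x * (-k * p x)) - 2 * k * (2 * p x * dp x)) x :=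
      (b0.const_mul 2).sub (b1.const_mul (2 * k))
    have c : HasDerivAt F _ x :=
      (((a2.mul b1).sub (a1.mul b2)).add (a0.mul b3)).add ((a0.mul b1).const_mul (4 * k))
    refine c.congr_deriv ?_
    ring
  have hz : ∀ x, x ∉ Ioo 0 L → η x = 0 ∧ deriv η x = 0 ∧ deriv (deriv η) x = 0 := by
    intro x hx
    refine ⟨image_eq_zero_of_notMem_tsupport fun h => hx (hηt h),
      image_eq_zero_of_notMem_tsupport fun h => hx (hηt (tsupport_deriv_subset h)),
      image_eq_zero_of_notMem_tsupport fun h =>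
        hx (hηt (tsupport_deriv_subset (tsupport_deriv_subset h)))⟩
  have hpc : Continuous p := continuous_iff_continuousAt.2 fun x => (hp x).continuousAt
  have hint : ∫ x in (0 : ℝ)..L, (deriv (deriv (deriv η)) x + 4 * k * deriv η x) * (p x) ^ 2 =
      F L - F 0 := by
    refine intervalIntegral.integral_eq_sub_of_hasDerivAt (fun x _ => hF x) ?_
    exact (((h3.continuous.add (continuous_const.mul h1.continuous)).mul
      (hpc.pow 2))).intervalIntegrable _ _
  rw [← integral_Ioc_eq_integral_Ioo, ← intervalIntegral.integral_of_le hL.le]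
  change ∫ x in (0 : ℝ)..L, (deriv (deriv (deriv η)) x + 4 * k * deriv η x) * (p x) ^ 2 = 0
  rw [hint]
  obtain ⟨u1, u2, u3⟩ := hz L (by simp)
  obtain ⟨v1, v2, v3⟩ := hz 0 (by simp)
  simp only [F, u1, u2, u3, v1, v2, v3]
  ring

end Pool.Agent.Y850.QE
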